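import Mathlib

/-!
# MP_7d76f2_co: `Z*(G) = Z(G)` does not imply `ft(G) = Z(G)`

We exhibit a connected graph on 11 vertices with `Z(G) = Z*(G) = 2` and `ft(G) = 1`.
-/

namespace Pool.Agent.Results.MP_7d76f2_co.FractionalEqualsButFortSmaller

section Defs
variable {V : Type*} [Fintype V] [DecidableEq V]

/-- The vertices that are eventually filled, starting from `S`, under the colour change rule: a
filled vertex `u`, all of whose neighbours other than `w` are filled, fills its neighbour
`w`. -/
inductive Filled (G : SimpleGraph V) (S : Finset V) : V → Prop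
  | init {v : V} : v ∈ S → Filled G S v
  | force {u w : V} : Filled G S u → G.Adj u w →
      (∀ x, G.Adj u x → x ≠ w → Filled G S x) → Filled G S w

/-- Zero forcing sets. -/
def IsZeroForcing (G : SimpleGraph V) (S : Finset V) : Prop := ∀ v, Filled G S v

/-- The zero forcing number `Z(G)`. -/
noncomputable def zeroForcingNumber (G : SimpleGraph V) : ℕ :=
  sInf {k | ∃ S : Finset V, IsZeroForcing G S ∧ S.card = k}

/-- Forts: nonempty sets `F` such that `|N(v) ∩ F| ≠ 1` for every `v ∉ F`. -/
def IsFort (G : SimpleGraph V) [DecidableRel G.Adj] (F : Finset V) : Prop :=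
  F.Nonempty ∧ ∀ v, v ∉ F → (G.neighborFinset v ∩ F).card ≠ 1

/-- Minimal forts. -/
def IsMinFort (G : SimpleGraph V) [DecidableRel G.Adj] (F : Finset V) : Prop :=
  IsFort G F ∧ ∀ F', IsFort G F' → F' ⊆ F → F' = F

/-- The fort number `ft(G)`: the maximum number of pairwise disjoint forts. -/
noncomputable def fortNumber (G : SimpleGraph V) [DecidableRel G.Adj] : ℕ :=
  sSup {k | ∃ P : Finset (Finset V), (∀ F ∈ P, IsFort G F) ∧
    (∀ F ∈ P, ∀ F' ∈ P, F ≠ F' → Disjoint F F') ∧ P.card = k}

/-- The fractional zero forcing number `Z*(G)`: the fractional transversal number of the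
hypergraph of minimal forts. -/
noncomputable def fractionalZ (G : SimpleGraph V) [DecidableRel G.Adj] : ℝ :=
  sInf {s | ∃ x : V → ℝ, (∀ v, 0 ≤ x v) ∧ (∀ F, IsMinFort G F → 1 ≤ ∑ v ∈ F, x v) ∧
    s = ∑ v, x v}

end Defs

/-! ### The graph -/

/-- Neighbourhoods as bit masks. -/
def nb : Fin 11 → ℕ := ![18, 5, 10, 116, 201, 8, 1304, 528, 64, 1152, 576]

/-- The graph with edges 01, 04, 12, 23, 34, 35, 36, 46, 47, 68, 6(10), 79, 9(10). -/
def G : SimpleGraph (Fin 11) where
  Adj u v := (nb u).testBit v = true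
  symm := ⟨by decide +kernel⟩
  loopless := ⟨by decide +kernel⟩

instance : DecidableRel G.Adj := fun u v => inferInstanceAs (Decidable ((nb u).testBit v = true))

/-- The graph has exactly the thirteen listed edges. -/
lemma G_edges : ∀ u v : Fin 11, G.Adj u v ↔ (u, v) ∈ ([(0, 1), (0, 4), (1, 2), (2, 3), (3, 4),
    (3, 5), (3, 6), (4, 6), (4, 7), (6, 8), (6, 10), (7, 9), (9, 10)] : List (Fin 11 × Fin 11)) ∨
    (v, u) ∈ ([(0, 1), (0, 4), (1, 2), (2, 3), (3, 4), (3, 5), (3, 6), (4, 6), (4, 7), (6, 8),
      (6, 10), (7, 9), (9, 10)] : List (Fin 11 × Fin 11)) := by decide +kernel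

/-! ### General facts -/

section General
variable {V : Type*} [Fintype V] [DecidableEq V]

lemma filled_not_mem {G : SimpleGraph V} [DecidableRel G.Adj] {S F : Finset V}
    (hF : IsFort G F) (hSF : Disjoint S F) {v : V} (hv : Filled G S v) : v ∉ F := by
  induction hv with
  | init h => exact fun h' => Finset.disjoint_left.1 hSF h h'
  | @force u w _ huw _ ihu ih =>
    intro hw
    refine hF.2 u ihu ?_
    rw [Finset.card_eq_one]
    refine ⟨w, ?_⟩
    ext x
    simp only [Finset.mem_inter, SimpleGraph.mem_neighborFinset, Finset.mem_singleton]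
    constructor
    · rintro ⟨hx, hxF⟩
      by_contra hne
      exact ih x hx hne hxF
    · rintro rfl
      exact ⟨huw, hw⟩

/-- A zero forcing set meets every fort. -/
lemma meets {G : SimpleGraph V} [DecidableRel G.Adj] {S F : Finset V}
    (hS : IsZeroForcing G S) (hF : IsFort G F) : (S ∩ F).Nonempty := by
  rw [Finset.nonempty_iff_ne_empty]
  intro h
  obtain ⟨v, hv⟩ := hF.1
  exact filled_not_mem hF (Finset.disjoint_iff_inter_eq_empty.2 h) (hS v) hv

end General

/-! ### Forts of the graph -/

/-- Subsets of the vertex set from bit masks. -/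
def toF (s : ℕ) : Finset (Fin 11) := Finset.univ.filter fun i => s.testBit i = true

lemma mem_toF {s : ℕ} {i : Fin 11} : i ∈ toF s ↔ s.testBit i = true := by simp [toF]

lemma exists_code (F : Finset (Fin 11)) : ∃ s < 2048, toF s = F := by
  have hinj : Function.Injective (fun s : Fin 2048 => toF s) := by
    intro s s' h
    apply Fin.ext
    apply Nat.eq_of_testBit_eq
    intro i
    by_cases hi : i < 11
    · have h1 : (⟨i, hi⟩ : Fin 11) ∈ toF s ↔ (⟨i, hi⟩ : Fin 11) ∈ toF s' := by
        rw [show toF s = toF s' from h]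
      rw [mem_toF, mem_toF] at h1
      exact Bool.eq_iff_iff.2 h1
    · have hp : (2048 : ℕ) ≤ 2 ^ i := by
        calc (2048 : ℕ) = 2 ^ 11 := by norm_num
          _ ≤ 2 ^ i := Nat.pow_le_pow_right (by norm_num) (by omega)
      rw [Nat.testBit_lt_two_pow (lt_of_lt_of_le s.2 hp),
        Nat.testBit_lt_two_pow (lt_of_lt_of_le s'.2 hp)]
  have hbij := (Fintype.bijective_iff_injective_and_card _).2 ⟨hinj, by simp⟩
  obtain ⟨s, hs⟩ := hbij.2 F
  exact ⟨s, s.2, hs⟩

/-- Number of bits. -/
def popc (x : ℕ) : ℕ :=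
  (x.testBit 0).toNat + (x.testBit 1).toNat + (x.testBit 2).toNat + (x.testBit 3).toNat +
  (x.testBit 4).toNat + (x.testBit 5).toNat + (x.testBit 6).toNat + (x.testBit 7).toNat +
  (x.testBit 8).toNat + (x.testBit 9).toNat + (x.testBit 10).toNat

lemma card_toF (x : ℕ) : (toF x).card = popc x := by
  have : ∀ b : Bool, (if b = true then 1 else 0) = b.toNat := by decide
  rw [toF, Finset.card_filter]
  simp only [this, popc, Fin.sum_univ_succ, Fin.sum_univ_zero]
  simp only [Fin.val_zero, Fin.succ, Fin.val_mk]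
  ring

lemma inter_toF (v : Fin 11) (s : ℕ) : G.neighborFinset v ∩ toF s = toF (nb v &&& s) := by
  ext u
  simp only [Finset.mem_inter, SimpleGraph.mem_neighborFinset, mem_toF, Nat.testBit_land,
    Bool.and_eq_true]
  rfl

/-- Boolean fort test. -/
def fortB (s : ℕ) : Bool :=
  (s != 0) && (List.finRange 11).all fun v => s.testBit v || (popc (nb v &&& s) != 1)

lemma fort_toF {s : ℕ} (hs : IsFort G (toF s)) : fortB s = true := by
  obtain ⟨⟨i, hi⟩, h⟩ := hs
  rw [mem_toF] at hi
  simp only [fortB, Bool.and_eq_true, List.all_eq_true, Bool.or_eq_true, bne_iff_ne]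
  refine ⟨?_, fun v _ => ?_⟩
  · rintro rfl
    simp at hi
  · by_cases hv : s.testBit v = true
    · exact Or.inl hv
    · refine Or.inr ?_
      have := h v (fun h' => hv (mem_toF.1 h'))
      rwa [inter_toF, card_toF] at this

/-- The minimal forts. -/
def L : List ℕ := [299, 301, 853, 854, 890, 965, 992, 1173, 1174, 1195, 1197, 1210, 1445, 1477,
  1504, 1557, 1558, 1594]

lemma check : (List.range 2048).all
    (fun s => !(fortB s) || L.any fun m => (m &&& s) == m) = true := by decide +kernel

lemma L_meet : ∀ m ∈ L, ∀ m' ∈ L, ∃ i : Fin 11, m.testBit i = true ∧ m'.testBit i = true := by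
  decide +kernel

lemma fort_contains {F : Finset (Fin 11)} (hF : IsFort G F) : ∃ m ∈ L, toF m ⊆ F := by
  obtain ⟨s, hs, rfl⟩ := exists_code F
  have h := List.all_eq_true.1 check s (List.mem_range.2 hs)
  rw [fort_toF hF] at h
  simp only [Bool.not_true, Bool.false_or, List.any_eq_true, beq_iff_eq] at h
  obtain ⟨m, hm, hms⟩ := h
  refine ⟨m, hm, fun i hi => ?_⟩
  rw [mem_toF] at hi ⊢
  rw [← hms, Nat.testBit_land, Bool.and_eq_true] at hi
  exact hi.2

/-- Any two forts meet. -/
lemma forts_meet {F F' : Finset (Fin 11)} (hF : IsFort G F) (hF' : IsFort G F') :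
    ¬ Disjoint F F' := by
  obtain ⟨m, hm, h⟩ := fort_contains hF
  obtain ⟨m', hm', h'⟩ := fort_contains hF'
  obtain ⟨i, hi, hi'⟩ := L_meet m hm m' hm'
  exact fun hd => Finset.disjoint_left.1 hd (h (mem_toF.2 hi)) (h' (mem_toF.2 hi'))

lemma fort_of_check {s : ℕ} (hs : fortB s = true) (hne : (toF s).Nonempty) :
    IsFort G (toF s) := by
  simp only [fortB, Bool.and_eq_true, List.all_eq_true, Bool.or_eq_true, bne_iff_ne] at hs
  refine ⟨hne, fun v hv => ?_⟩
  rw [inter_toF, card_toF]
  rcases hs.2 v (List.mem_finRange v) with h | h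
  · exact absurd (mem_toF.2 h) hv
  · exact h

/-- Four minimal forts covering every vertex at most twice. -/
def quad : List ℕ := [299, 992, 1173, 1558]

lemma quad_min {m : ℕ} (hm : m ∈ quad) : IsMinFort G (toF m) := by
  have h1 : ∀ m ∈ quad, fortB m = true ∧ (toF m).Nonempty := by decide +kernel
  have h2 : ∀ m ∈ quad, ∀ m' ∈ L,
      (∀ i : Fin 11, m'.testBit i = true → m.testBit i = true) → m' = m := by decide +kernel
  refine ⟨fort_of_check (h1 m hm).1 (h1 m hm).2, fun F' hF' hsub => ?_⟩
  obtain ⟨m', hm', hsub'⟩ := fort_contains hF'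
  have h3 : m' = m := h2 m hm m' hm'
    (fun i hi => mem_toF.1 (hsub (hsub' (mem_toF.2 hi))))
  subst h3
  exact Finset.Subset.antisymm hsub hsub'

lemma two_le {x : Fin 11 → ℝ} (hx : ∀ v, 0 ≤ x v) (h : ∀ m ∈ quad, 1 ≤ ∑ v ∈ toF m, x v) :
    2 ≤ ∑ v, x v := by
  have e1 : toF 299 = {0, 1, 3, 5, 8} := by decide +kernel
  have e2 : toF 992 = {5, 6, 7, 8, 9} := by decide +kernel
  have e3 : toF 1173 = {0, 2, 4, 7, 10} := by decide +kernel
  have e4 : toF 1558 = {1, 2, 4, 9, 10} := by decide +kernel
  have h1 := h 299 (by decide)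
  have h2 := h 992 (by decide)
  have h3 := h 1173 (by decide)
  have h4 := h 1558 (by decide)
  rw [e1, Finset.sum_insert (by decide), Finset.sum_insert (by decide),
    Finset.sum_insert (by decide), Finset.sum_insert (by decide), Finset.sum_singleton] at h1
  rw [e2, Finset.sum_insert (by decide), Finset.sum_insert (by decide),
    Finset.sum_insert (by decide), Finset.sum_insert (by decide), Finset.sum_singleton] at h2
  rw [e3, Finset.sum_insert (by decide), Finset.sum_insert (by decide),
    Finset.sum_insert (by decide), Finset.sum_insert (by decide), Finset.sum_singleton] at h3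
  rw [e4, Finset.sum_insert (by decide), Finset.sum_insert (by decide),
    Finset.sum_insert (by decide), Finset.sum_insert (by decide), Finset.sum_singleton] at h4
  have e5 : (Finset.univ : Finset (Fin 11)) = {0, 1, 2, 3, 4, 5, 6, 7, 8, 9, 10} := by
    decide +kernel
  rw [e5, Finset.sum_insert (by decide), Finset.sum_insert (by decide),
    Finset.sum_insert (by decide), Finset.sum_insert (by decide), Finset.sum_insert (by decide),
    Finset.sum_insert (by decide), Finset.sum_insert (by decide), Finset.sum_insert (by decide),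
    Finset.sum_insert (by decide), Finset.sum_insert (by decide), Finset.sum_singleton]
  have := hx 3
  have := hx 6
  linarith

/-! ### The zero forcing set `{2, 5}` -/

/-- The zero forcing set. -/
def S₀ : Finset (Fin 11) := {2, 5}

lemma extend {S T : Finset (Fin 11)} (w : Fin 11) (hT : ∀ x ∈ T, Filled G S x)
    (h : ∃ u ∈ T, G.Adj u w ∧ ∀ x, G.Adj u x → x ≠ w → x ∈ T) :
    ∀ x ∈ insert w T, Filled G S x := by
  obtain ⟨u, hu, huw, hx⟩ := h
  intro x hxT
  rcases Finset.mem_insert.1 hxT with rfl | hxT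
  · exact Filled.force (hT u hu) huw fun y hy hne => hT y (hx y hy hne)
  · exact hT x hxT

lemma zf_S₀ : IsZeroForcing G S₀ := by
  have t0 : ∀ x ∈ S₀, Filled G S₀ x := fun x hx => Filled.init hx
  have t1 := extend 3 t0 (by decide +kernel)
  have t2 := extend 1 t1 (by decide +kernel)
  have t3 := extend 0 t2 (by decide +kernel)
  have t4 := extend 4 t3 (by decide +kernel)
  have t5 := extend 6 t4 (by decide +kernel)
  have t6 := extend 7 t5 (by decide +kernel)
  have t7 := extend 9 t6 (by decide +kernel)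
  have t8 := extend 10 t7 (by decide +kernel)
  have t9 := extend 8 t8 (by decide +kernel)
  intro v
  have hall : ∀ v : Fin 11, v ∈ (insert 8 (insert 10 (insert 9 (insert 7 (insert 6 (insert 4
    (insert 0 (insert 1 (insert 3 S₀)))))))) : Finset (Fin 11)) := by decide +kernel
  exact t9 v (hall v)

lemma Z_eq : zeroForcingNumber G = 2 := by
  apply IsLeast.csInf_eq
  refine ⟨⟨S₀, zf_S₀, by decide⟩, ?_⟩
  rintro k ⟨S, hS, rfl⟩
  have h := two_le (x := fun v => if v ∈ S then (1 : ℝ) else 0)
    (fun v => by split_ifs <;> norm_num) (fun m hm => by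
      obtain ⟨v, hv⟩ := meets hS (quad_min hm).1
      rw [Finset.mem_inter] at hv
      calc (1 : ℝ) = (if v ∈ S then (1 : ℝ) else 0) := by rw [if_pos hv.1]
        _ ≤ ∑ v ∈ toF m, (if v ∈ S then (1 : ℝ) else 0) :=
          Finset.single_le_sum (f := fun v => if v ∈ S then (1 : ℝ) else 0)
            (fun v _ => by split_ifs <;> norm_num) hv.2)
  rw [Finset.sum_ite_mem, Finset.univ_inter, Finset.sum_const, nsmul_eq_mul, mul_one] at h
  exact_mod_cast h

lemma Zstar_eq : fractionalZ G = 2 := by
  apply IsLeast.csInf_eq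
  constructor
  · refine ⟨fun v => if v ∈ S₀ then (1 : ℝ) else 0, fun v => ?_, fun F hF => ?_, ?_⟩
    · change (0 : ℝ) ≤ if v ∈ S₀ then (1 : ℝ) else 0
      split_ifs <;> norm_num
    · obtain ⟨v, hv⟩ := meets zf_S₀ hF.1
      rw [Finset.mem_inter] at hv
      calc (1 : ℝ) = (if v ∈ S₀ then (1 : ℝ) else 0) := by rw [if_pos hv.1]
        _ ≤ ∑ v ∈ F, (if v ∈ S₀ then (1 : ℝ) else 0) :=
          Finset.single_le_sum (f := fun v => if v ∈ S₀ then (1 : ℝ) else 0)
            (fun v _ => by split_ifs <;> norm_num) hv.2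
    · rw [Finset.sum_ite_mem, Finset.univ_inter, Finset.sum_const, nsmul_eq_mul, mul_one]
      have : S₀.card = 2 := by decide
      rw [this]
      norm_num
  · rintro s ⟨x, hx, hF, rfl⟩
    exact two_le hx fun m hm => hF _ (quad_min hm)

lemma ft_eq : fortNumber G = 1 := by
  apply IsGreatest.csSup_eq
  constructor
  · refine ⟨{toF 299}, ?_, ?_, by simp⟩
    · intro F hF
      rw [Finset.mem_singleton] at hF
      subst hF
      exact (quad_min (by decide)).1
    · intro F hF F' hF' hne
      rw [Finset.mem_singleton] at hF hF'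
      exact absurd (hF.trans hF'.symm) hne
  · rintro k ⟨P, hP, hd, rfl⟩
    rw [Finset.card_le_one]
    intro F hF F' hF'
    by_contra hne
    exact forts_meet (hP F hF) (hP F' hF') (hd F hF F' hF' hne)

lemma conn : G.Connected := by
  rw [SimpleGraph.connected_iff_exists_forall_reachable]
  refine ⟨3, ?_⟩
  have a : ∀ u v : Fin 11, G.Adj u v → G.Reachable u v := fun u v h => h.reachable
  have r2 := a 3 2 (by decide +kernel)
  have r4 := a 3 4 (by decide +kernel)
  have r5 := a 3 5 (by decide +kernel)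
  have r6 := a 3 6 (by decide +kernel)
  have r1 := r2.trans (a 2 1 (by decide +kernel))
  have r0 := r4.trans (a 4 0 (by decide +kernel))
  have r7 := r4.trans (a 4 7 (by decide +kernel))
  have r8 := r6.trans (a 6 8 (by decide +kernel))
  have r10 := r6.trans (a 6 10 (by decide +kernel))
  have r9 := r7.trans (a 7 9 (by decide +kernel))
  intro w
  fin_cases w
  · exact r0
  · exact r1
  · exact r2
  · exact SimpleGraph.Reachable.refl _
  · exact r4
  · exact r5
  · exact r6
  · exact r7
  · exact r8
  · exact r9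
  · exact r10

/-- **Q1 is false.**  There is a connected graph on 11 vertices with `Z(G) = Z*(G) = 2` and
`ft(G) = 1`; so `Z*(G) = Z(G)` does not imply `ft(G) = Z(G)`. -/
theorem result :
    (∃ (G : SimpleGraph (Fin 11)) (_ : DecidableRel G.Adj), G.Connected ∧
      zeroForcingNumber G = 2 ∧ fractionalZ G = 2 ∧ fortNumber G = 1) ∧
    ¬ (∀ (V : Type) [Fintype V] [DecidableEq V] [Nonempty V] (G : SimpleGraph V)
      [DecidableRel G.Adj],
      fractionalZ G = zeroForcingNumber G ↔ fortNumber G = zeroForcingNumber G) := by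
  refine ⟨⟨G, inferInstance, conn, Z_eq, Zstar_eq, ft_eq⟩, fun h => ?_⟩
  have h1 := (h (Fin 11) G).1 (by rw [Z_eq, Zstar_eq]; norm_num)
  rw [Z_eq, ft_eq] at h1
  norm_num at h1

end Pool.Agent.Results.MP_7d76f2_co.FractionalEqualsButFortSmaller
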